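import Pool.Agent.H608R4.KM.Stm

/-!
The exact four-cluster state is not a local minimum of the Kuramoto energy (piece FI).
-/

set_option autoImplicit false

namespace Pool.Agent.TH16.KM

open Pool.Agent.H608R4.KM Finset Filter Topology

theorem ind_eq (p : Prop) [Decidable p] : ind p = if p then 1 else 0 := by
  unfold ind
  by_cases h : p <;> simp [h]

theorem four (κ : ZMod 4) : κ = 0 ∨ κ = 1 ∨ κ = 2 ∨ κ = 3 := by
  revert κ; decide

theorem ne1 (κ : ZMod 4) : κ ≠ κ + 1 := by
  revert κ; decide

theorem ne2 (κ : ZMod 4) : κ ≠ κ + 1 + 1 := by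
  revert κ; decide

/-- the number of edges between two consecutive clusters -/
noncomputable def w {n : ℕ} (a : Fin n → Fin n → ℝ) (k : Fin n → ZMod 4) (κ : ZMod 4) : ℝ :=
  ∑ i, ∑ j, if k i = κ ∧ k j = κ + 1 then a i j else 0

theorem sum_w {n : ℕ} (a : Fin n → Fin n → ℝ) (k : Fin n → ZMod 4) (s : ZMod 4 → ℝ) :
    ∑ i, ∑ j, a i j * (if k j = k i + 1 then s (k i) else 0) = ∑ κ, w a k κ * s κ := by
  have hr : ∑ κ, w a k κ * s κ =
      ∑ i, ∑ j, ∑ κ, (if k i = κ ∧ k j = κ + 1 then a i j else 0) * s κ := by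
    unfold w
    simp only [Finset.sum_mul]
    rw [Finset.sum_comm]
    refine Finset.sum_congr rfl fun i _ => ?_
    rw [Finset.sum_comm]
  rw [hr]
  refine Finset.sum_congr rfl fun i _ => Finset.sum_congr rfl fun j _ => ?_
  rw [Finset.sum_eq_single (k i)]
  · by_cases h : k j = k i + 1 <;> simp [h]
  · intro κ _ hκ
    simp [hκ.symm]
  · simp

theorem pair {n : ℕ} {a : Fin n → Fin n → ℝ} {θ : Fin n → ℝ} {k : Fin n → ZMod 4}
    (had : ∀ i j, k j = k i + 1 → Real.sin (θ j - θ i) = 1)
    (hop : ∀ i j, k j = k i + 2 → a i j = 0) (φ : ZMod 4 → ℝ) (e : ℝ) (i j : Fin n) :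
    a i j * (1 - Real.cos ((θ i + e * φ (k i)) - (θ j + e * φ (k j)))) =
      a i j * (1 - Real.cos (θ i - θ j)) +
      (a i j * (if k j = k i + 1 then Real.sin (e * (φ (k i + 1) - φ (k i))) else 0) +
       a i j * (if k i = k j + 1 then Real.sin (e * (φ (k j + 1) - φ (k j))) else 0)) := by
  have hcos : ∀ i j, k j = k i + 1 → Real.cos (θ j - θ i) = 0 := by
    intro i j h
    have h2 := Real.sin_sq_add_cos_sq (θ j - θ i)
    rw [had i j h] at h2
    have h3 : Real.cos (θ j - θ i) ^ 2 = 0 := by linarith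
    exact pow_eq_zero_iff (two_ne_zero) |>.1 h3
  rcases four (k j - k i) with h | h | h | h
  · have h' : k j = k i := sub_eq_zero.1 h
    rw [h', if_neg (ne1 _)]
    have : (θ i + e * φ (k i)) - (θ j + e * φ (k i)) = θ i - θ j := by ring
    rw [this]; ring
  · have h' : k j = k i + 1 := by rw [← h]; ring
    have hn : ¬ k i = k j + 1 := by rw [h']; exact ne2 _
    rw [if_pos h', if_neg hn]
    have e1 : (θ i + e * φ (k i)) - (θ j + e * φ (k j)) =
        -((θ j - θ i) + e * (φ (k i + 1) - φ (k i))) := by rw [h']; ring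
    have e2 : θ i - θ j = -(θ j - θ i) := by ring
    rw [e1, e2, Real.cos_neg, Real.cos_neg, Real.cos_add, hcos i j h', had i j h']
    ring
  · have h' : k j = k i + 2 := by rw [← h]; ring
    rw [hop i j h']
    ring
  · have h' : k i = k j + 1 := by
      have h4 : (3 : ZMod 4) + 1 = 0 := by decide
      have : k j = k i + 3 := by rw [← h]; ring
      rw [this, add_assoc, h4, add_zero]
    have hn : ¬ k j = k i + 1 := by rw [h']; exact ne2 _
    rw [if_pos h', if_neg hn]
    have e1 : (θ i + e * φ (k i)) - (θ j + e * φ (k j)) =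
        (θ i - θ j) + e * (φ (k j + 1) - φ (k j)) := by rw [h']; ring
    rw [e1, Real.cos_add, hcos j i h', had j i h']
    ring

theorem total {n : ℕ} {a : Fin n → Fin n → ℝ} {θ : Fin n → ℝ} {k : Fin n → ZMod 4}
    (hs : ∀ i j, a i j = a j i)
    (had : ∀ i j, k j = k i + 1 → Real.sin (θ j - θ i) = 1)
    (hop : ∀ i j, k j = k i + 2 → a i j = 0) (φ : ZMod 4 → ℝ) (e : ℝ) :
    ∑ i, ∑ j, a i j * (1 - Real.cos ((θ i + e * φ (k i)) - (θ j + e * φ (k j)))) =
      ∑ i, ∑ j, a i j * (1 - Real.cos (θ i - θ j)) +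
        2 * ∑ κ, w a k κ * Real.sin (e * (φ (κ + 1) - φ κ)) := by
  simp only [pair had hop, Finset.sum_add_distrib]
  have h1 := sum_w a k (fun κ => Real.sin (e * (φ (κ + 1) - φ κ)))
  have h2 : ∑ i, ∑ j, a i j * (if k i = k j + 1 then Real.sin (e * (φ (k j + 1) - φ (k j))) else 0) =
      ∑ i, ∑ j, a i j * (if k j = k i + 1 then Real.sin (e * (φ (k i + 1) - φ (k i))) else 0) := by
    rw [Finset.sum_comm]
    refine Finset.sum_congr rfl fun i _ => Finset.sum_congr rfl fun j _ => ?_
    rw [hs j i]
  rw [h2, h1]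
  ring

theorem along {n : ℕ} {a : Fin n → Fin n → ℝ} {θ : Fin n → ℝ} {k : Fin n → ZMod 4}
    (hs : ∀ i j, a i j = a j i)
    (had : ∀ i j, k j = k i + 1 → Real.sin (θ j - θ i) = 1)
    (hop : ∀ i j, k j = k i + 2 → a i j = 0)
    (hmin : IsLocalMin (fun t : Fin n → ℝ => ∑ i, ∑ j, a i j * (1 - Real.cos (t i - t j))) θ)
    (φ : ZMod 4 → ℝ) :
    ∃ ε : ℝ, 0 < ε ∧ ∀ e : ℝ, |e| < ε →
      0 ≤ ∑ κ, w a k κ * Real.sin (e * (φ (κ + 1) - φ κ)) := by
  have hc : Tendsto (fun e : ℝ => fun i : Fin n => θ i + e * φ (k i)) (𝓝 0) (𝓝 θ) := by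
    have : Continuous (fun e : ℝ => fun i : Fin n => θ i + e * φ (k i)) := by fun_prop
    have h := this.tendsto 0
    simpa using h
  have h := hc.eventually hmin
  obtain ⟨ε, hε, h⟩ := Metric.eventually_nhds_iff.1 h
  refine ⟨ε, hε, fun e he => ?_⟩
  have h1 := h (y := e) (by rwa [Real.dist_eq, sub_zero])
  simp only at h1
  rw [total hs had hop φ e] at h1
  linarith

theorem t_FI : S_FI := by
  intro n a θ k hG hN _ had hop hmin
  have ha0 : ∀ i j, 0 ≤ a i j := fun i j => by
    rcases hG.zo i j with h | h <;> rw [h] <;> norm_num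
  have hw0 : ∀ κ, 0 ≤ w a k κ := fun κ =>
    Finset.sum_nonneg fun i _ => Finset.sum_nonneg fun j _ => by
      split_ifs
      · exact ha0 i j
      · exact le_rfl
  -- the four numbers are equal
  have hstep : ∀ κ, w a k (κ + 1) = w a k κ := by
    intro κ
    obtain ⟨ε, hε, h⟩ := along hG.sym had hop hmin (fun c => if c = κ + 1 then 1 else 0)
    have hsum : ∀ e : ℝ, ∑ c, w a k c * Real.sin (e * ((if c + 1 = κ + 1 then (1 : ℝ) else 0) -
        (if c = κ + 1 then 1 else 0))) = (w a k κ - w a k (κ + 1)) * Real.sin e := by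
      intro e
      have h1 : ∀ c, w a k c * Real.sin (e * ((if c + 1 = κ + 1 then (1 : ℝ) else 0) -
          (if c = κ + 1 then 1 else 0))) =
          (if c = κ then w a k κ * Real.sin e else 0) -
          (if c = κ + 1 then w a k (κ + 1) * Real.sin e else 0) := by
        intro c
        by_cases h2 : c = κ
        · subst h2
          have := ne1 c
          simp [this]
        · by_cases h3 : c = κ + 1
          · subst h3
            have h10 : (1 : ZMod 4) ≠ 0 := by decide
            simp [h2, h10]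
          · have h4 : ¬ c + 1 = κ + 1 := fun h => h2 (add_right_cancel h)
            simp [h2, h3]
      rw [Finset.sum_congr rfl fun c _ => h1 c, Finset.sum_sub_distrib]
      simp
      ring
    have hp := h (min (ε / 2) 1) (by
      rw [abs_of_pos (by positivity)]
      exact (min_le_left _ _).trans_lt (by linarith))
    have hm := h (-(min (ε / 2) 1)) (by
      rw [abs_neg, abs_of_pos (by positivity)]
      exact (min_le_left _ _).trans_lt (by linarith))
    rw [hsum] at hp hm
    have hpos : 0 < Real.sin (min (ε / 2) 1) :=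
      Real.sin_pos_of_pos_of_lt_pi (by positivity)
        ((min_le_right _ _).trans_lt (by linarith [Real.pi_gt_three]))
    rw [Real.sin_neg] at hm
    have h5 : 0 ≤ w a k κ - w a k (κ + 1) := by
      by_contra hc
      push Not at hc
      nlinarith
    have h6 : w a k κ - w a k (κ + 1) ≤ 0 := by
      by_contra hc
      push Not at hc
      nlinarith
    linarith
  have e1 : w a k 1 = w a k 0 := by simpa using hstep 0
  have e2 : w a k 2 = w a k 1 := by
    have := hstep 1
    rwa [show (1 : ZMod 4) + 1 = 2 from by decide] at this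
  have e3 : w a k 3 = w a k 2 := by
    have := hstep 2
    rwa [show (2 : ZMod 4) + 1 = 3 from by decide] at this
  -- the common value is zero
  have hz : w a k 0 = 0 := by
    obtain ⟨ε, hε, h⟩ := along hG.sym had hop hmin
      (fun c => if c = 0 then 0 else if c = 1 then 1 else if c = 2 then 2 else 3)
    have hm := h (-(min (ε / 2) 1)) (by
      rw [abs_neg, abs_of_pos (by positivity)]
      exact (min_le_left _ _).trans_lt (by linarith))
    have hpos : 0 < Real.sin (min (ε / 2) 1) :=
      Real.sin_pos_of_pos_of_lt_pi (by positivity)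
        ((min_le_right _ _).trans_lt (by linarith [Real.pi_gt_three]))
    generalize min (ε / 2) 1 = t at hm hpos
    have hu : ∀ F : ZMod 4 → ℝ, ∑ c, F c = F 0 + F 1 + F 2 + F 3 := fun F => by
      exact Fin.sum_univ_four F
    rw [hu] at hm
    have d1 : ((0 : ZMod 4) + 1) = 1 := by decide
    have d2 : ((1 : ZMod 4) + 1) = 2 := by decide
    have d3 : ((2 : ZMod 4) + 1) = 3 := by decide
    have d4 : ((3 : ZMod 4) + 1) = 0 := by decide
    have n10 : (1 : ZMod 4) ≠ 0 := by decide
    have n20 : (2 : ZMod 4) ≠ 0 := by decide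
    have n30 : (3 : ZMod 4) ≠ 0 := by decide
    have n21 : (2 : ZMod 4) ≠ 1 := by decide
    have n31 : (3 : ZMod 4) ≠ 1 := by decide
    have n32 : (3 : ZMod 4) ≠ 2 := by decide
    simp only [d1, d2, d3, d4, if_true, if_neg n10, if_neg n20, if_neg n30, if_neg n21,
      if_neg n31, if_neg n32] at hm
    have s1 : Real.sin (-t * (1 - 0)) = -Real.sin t := by
      rw [show -t * (1 - 0) = -t from by ring, Real.sin_neg]
    have s2 : Real.sin (-t * (2 - 1)) = -Real.sin t := by
      rw [show -t * (2 - 1) = -t from by ring, Real.sin_neg]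
    have s3 : Real.sin (-t * (3 - 2)) = -Real.sin t := by
      rw [show -t * (3 - 2) = -t from by ring, Real.sin_neg]
    have s4 : Real.sin (-t * (0 - 3)) = 3 * Real.sin t - 4 * Real.sin t ^ 3 := by
      rw [show -t * (0 - 3) = 3 * t from by ring, Real.sin_three_mul]
    rw [s1, s2, s3, s4, e3, e2, e1] at hm
    have h7 : w a k 0 * (4 * Real.sin t ^ 3) ≤ 0 := by nlinarith
    have h8 : 0 < 4 * Real.sin t ^ 3 := by positivity
    have h9 : w a k 0 ≤ 0 := by
      by_contra hc
      push Not at hc
      have := mul_pos hc h8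
      linarith
    exact le_antisymm h9 (hw0 0)
  have hall : ∀ κ, w a k κ = 0 := by
    intro κ
    rcases four κ with h | h | h | h <;> rw [h]
    · exact hz
    · rw [e1, hz]
    · rw [e2, e1, hz]
    · rw [e3, e2, e1, hz]
  -- hence no edges between adjacent clusters
  have hno : ∀ i j, k j = k i + 1 → a i j = 0 := by
    intro i j hij
    have h1 := hall (k i)
    unfold w at h1
    have hnn : ∀ i' j', 0 ≤ (if k i' = k i ∧ k j' = k i + 1 then a i' j' else 0) := by
      intro i' j'
      split_ifs
      · exact ha0 i' j'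
      · exact le_rfl
    have h2 := (Finset.sum_eq_zero_iff_of_nonneg
      (fun i' _ => Finset.sum_nonneg fun j' _ => hnn i' j')).1 h1 i (Finset.mem_univ _)
    have h3 := (Finset.sum_eq_zero_iff_of_nonneg (fun j' _ => hnn i j')).1 h2 j (Finset.mem_univ _)
    rw [if_pos ⟨rfl, hij⟩] at h3
    exact h3
  -- degree count
  have hn2 : (2 : ℝ) ≤ n := by exact_mod_cast hG.two
  have i0 : Fin n := ⟨0, by have := hG.two; omega⟩
  have hd := hG.deg i0
  have hle : ∑ j, a i0 j ≤ N k (k i0) - 1 := by
    have h1 : ∑ j, a i0 j ≤ ∑ j, (ind (k j = k i0) - if j = i0 then 1 else 0) := by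
      refine Finset.sum_le_sum fun j _ => ?_
      rw [ind_eq]
      by_cases hj : j = i0
      · subst hj
        simp [hG.diag]
      · rw [if_neg hj, sub_zero]
        rcases four (k j - k i0) with h | h | h | h
        · have h' : k j = k i0 := sub_eq_zero.1 h
          rw [if_pos h']
          rcases hG.zo i0 j with h | h <;> rw [h] <;> norm_num
        · have h' : k j = k i0 + 1 := by rw [← h]; ring
          rw [hno i0 j h']
          split_ifs <;> norm_num
        · have h' : k j = k i0 + 2 := by rw [← h]; ring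
          rw [hop i0 j h']
          split_ifs <;> norm_num
        · have h' : k i0 = k j + 1 := by
            have h4 : (3 : ZMod 4) + 1 = 0 := by decide
            have : k j = k i0 + 3 := by rw [← h]; ring
            rw [this, add_assoc, h4, add_zero]
          rw [hG.sym i0 j, hno j i0 h']
          split_ifs <;> norm_num
    rw [Finset.sum_sub_distrib] at h1
    simp only [Finset.sum_ite_eq', Finset.mem_univ, if_true] at h1
    exact h1
  have hNk := (abs_le.1 (hN (k i0))).2
  unfold dl at hd
  nlinarith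

end Pool.Agent.TH16.KM
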